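import Pool.Agent.H41.CZ.Defs

/-!
# The module KC of the board `cz_modules`

A path of points with small neighbourhoods in `W` gives a nonempty kernel.
-/

open Ordinal Order Set
open scoped ZFSet

namespace CZ.H56KC

open SF CZ

theorem d_nonneg {M : V → Prop} {X : V} {d : V → V → ℝ} (h : MetricIn M X d) {x y : V}
    (hx : x ∈ X) (hy : y ∈ X) : 0 ≤ d x y := by
  have h1 := h.tri x hx y hy x hx
  rw [h.self x hx, h.symm y hy x hx] at h1
  linarith

/-- the members of a small node around `x` are close to `x` -/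
theorem near {X W : V} {d : V → V → ℝ} {Y : Type 1} [MetricSpace Y] {ι : V → Y}
    (hR : Rz X d ι) {K n : ℕ} {x : Y} (hX : ∀ a ∈ app W (nS n), a ∈ X) (hN : Nd W d K n)
    {ρ : ℝ} (hρ : 0 < ρ) (hW : ∀ u ∈ X, dist (ι u) x < ρ → u ∈ app W (nS n)) {η : ℝ}
    (hη : 0 < η) (hK : 1 ≤ (K + 1) * η) : ∀ a ∈ app W (nS n), dist (ι a) x < 2 * η := by
  intro a ha
  obtain ⟨u, hu, hu1⟩ := hR.dense x (min ρ η) (lt_min hρ hη)
  rw [dist_comm] at hu1
  have hu2 : u ∈ app W (nS n) := hW u hu (lt_of_lt_of_le hu1 (min_le_left _ _))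
  have h1 := hN.2 a ha u hu2
  have h2 : (0 : ℝ) < (K : ℝ) + 1 := by positivity
  have h3 : d a u ≤ η := by
    by_contra h
    push Not at h
    have := mul_lt_mul_of_pos_left h h2
    linarith
  have h4 := dist_triangle (ι a) (ι u) x
  rw [hR.dist a (hX a ha) u hu] at h4
  have h5 := lt_of_lt_of_le hu1 (min_le_right _ _)
  linarith

theorem exists_large (k : ℕ) {η : ℝ} (hη : 0 < η) : ∃ K : ℕ, k ≤ K ∧ 1 ≤ ((K : ℝ) + 1) * η := by
  obtain ⟨K, hK⟩ := exists_nat_ge (1 / η)
  refine ⟨max k K, le_max_left _ _, ?_⟩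
  have h1 : (K : ℝ) ≤ (max k K : ℕ) := by exact_mod_cast le_max_right k K
  have h2 : 1 / η * η ≤ (((max k K : ℕ) : ℝ) + 1) * η :=
    mul_le_mul_of_nonneg_right (by linarith) hη.le
  rwa [one_div, inv_mul_cancel₀ hη.ne'] at h2

theorem pf_KC : T_KC := by
  intro M X W d _ hm hF Y _ _ ι hR P hP hd hN
  have hX : ∀ n : ℕ, ∀ a ∈ app W (nS n), a ∈ X := fun n a ha => (hF.o n).1 ha
  have key : ∀ α : Ordinal.{0}, ∀ x ∈ P, ∀ k n : ℕ, Nd W d k n →
      (∃ ρ > 0, ∀ u ∈ X, dist (ι u) x < ρ → u ∈ app W (nS n)) → Dk X W d α k n := by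
    intro α
    induction α using WellFoundedLT.induction with
    | _ α ih =>
    intro x hx k n hkn hρ
    obtain ⟨ρ, hρ, hW⟩ := hρ
    rw [Dk]
    refine ⟨hkn, ?_⟩
    rintro ⟨β, hβ⟩
    obtain ⟨y, hy, hyx, hxy⟩ := hd x hx (ρ / 4) (by positivity)
    have hs : 0 < dist x y := dist_pos.2 (Ne.symm hyx)
    set s := dist x y with hsdef
    set η := min s ρ / 16 with hηdef
    have hη : 0 < η := by
      have := lt_min hs hρ
      positivity
    have hηs : η ≤ s / 16 := div_le_div_of_nonneg_right (min_le_left _ _) (by norm_num)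
    have hηρ : η ≤ ρ / 16 := div_le_div_of_nonneg_right (min_le_right _ _) (by norm_num)
    obtain ⟨K, hkK, hK⟩ := exists_large (k + 1) hη
    obtain ⟨n1, hn1, ρ1, hρ1, hW1⟩ := hN x hx K
    obtain ⟨n2, hn2, ρ2, hρ2, hW2⟩ := hN y hy K
    have h1 := near hR (hX n1) hn1 hρ1 hW1 hη hK
    have h2 := near hR (hX n2) hn2 hρ2 hW2 hη hK
    have hmono : ∀ n', Nd W d K n' → Nd W d (k + 1) n' := by
      intro n' h
      refine ⟨h.1, fun a ha b hb => ?_⟩
      have h3 := h.2 a ha b hb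
      have h4 := d_nonneg hm (hX n' a ha) (hX n' b hb)
      have h5 : ((k + 1 : ℕ) : ℝ) ≤ (K : ℝ) := by exact_mod_cast hkK
      have h6 : (((k + 1 : ℕ) : ℝ) + 1) * d a b ≤ ((K : ℝ) + 1) * d a b :=
        mul_le_mul_of_nonneg_right (by linarith) h4
      linarith
    obtain ⟨r, -, hr⟩ := exists_large 0 hη
    have hr0 : (0 : ℝ) < (r : ℝ) + 1 := by positivity
    refine ⟨n1, n2, ih β hβ x hx (k + 1) n1 (hmono n1 hn1) ⟨ρ1, hρ1, hW1⟩,
      ih β hβ y hy (k + 1) n2 (hmono n2 hn2) ⟨ρ2, hρ2, hW2⟩, ⟨r, ?_⟩, ⟨r, ?_⟩, ⟨r, ?_⟩⟩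
    · intro a ha b hb hab
      have h3 : d a b < η := by
        by_contra h
        push Not at h
        have := mul_le_mul_of_nonneg_left h hr0.le
        linarith
      refine hW b hb ?_
      have h4 := dist_triangle (ι b) (ι a) x
      rw [dist_comm (ι b) (ι a), hR.dist a (hX n1 a ha) b hb] at h4
      have h5 := h1 a ha
      linarith
    · intro a ha b hb hab
      have h3 : d a b < η := by
        by_contra h
        push Not at h
        have := mul_le_mul_of_nonneg_left h hr0.le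
        linarith
      refine hW b hb ?_
      have h4 := dist_triangle (ι b) (ι a) x
      rw [dist_comm (ι b) (ι a), hR.dist a (hX n2 a ha) b hb] at h4
      have h5 := h2 a ha
      have h6 := dist_triangle (ι a) y x
      rw [dist_comm y x, ← hsdef] at h6
      linarith
    · intro a ha b hb
      have h3 := h1 a ha
      have h4 := h2 b hb
      have h5 := dist_triangle4 x (ι a) (ι b) y
      rw [hR.dist a (hX n1 a ha) b (hX n2 b hb), dist_comm x (ι a), ← hsdef] at h5
      have h6 : η ≤ d a b := by linarith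
      have h7 := mul_le_mul_of_nonneg_left h6 hr0.le
      linarith
  obtain ⟨x, hx⟩ := hP
  obtain ⟨n, hn, hρ⟩ := hN x hx 0
  exact ⟨0, n, fun α _ => key α x hx 0 n hn hρ⟩

end CZ.H56KC
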